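import Mathlib

/-!
Closed self-avoiding lattice paths, enclosed cells (project PS): definitions and statements which
need only Mathlib.
-/

set_option autoImplicit false
set_option linter.unusedVariables false

namespace Pool.Agent.N223.PS

open scoped Classical

noncomputable section

/-- neighbours in the square lattice -/
def Nb (p q : ℤ × ℤ) : Prop := |p.1 - q.1| + |p.2 - q.2| = 1

/-- closed self-avoiding lattice path with `L` steps -/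
structure Cl (L : ℕ) (P : ℕ → ℤ × ℤ) : Prop where
  four : 4 ≤ L
  adj : ∀ i < L, Nb (P i) (P (i + 1))
  inj : ∀ i < L, ∀ j < L, P i = P j → i = j
  clo : P L = P 0

/-- the edge `k` of `P` is horizontal, joins the columns `a` and `a + 1`, and is higher than `b` -/
def Ab (P : ℕ → ℤ × ℤ) (a b : ℤ) (k : ℕ) : Prop :=
  (((P k).1 = a ∧ (P (k + 1)).1 = a + 1) ∨ ((P k).1 = a + 1 ∧ (P (k + 1)).1 = a)) ∧ b < (P k).2

/-- number of edges above the cell with the lower left corner `(a, b)` -/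
def ab (L : ℕ) (P : ℕ → ℤ × ℤ) (a b : ℤ) : ℕ :=
  ((Finset.range L).filter (fun k => Ab P a b k)).card

/-- enclosed cells -/
def En (L : ℕ) (P : ℕ → ℤ × ℤ) (c : ℤ × ℤ) : Prop := Odd (ab L P c.1 c.2)

/-- the area -/
def ar (L : ℕ) (P : ℕ → ℤ × ℤ) : ℕ := Nat.card {c : ℤ × ℤ // En L P c}

/-- AR: the area of a path which follows the closed path `P`, enlarged by the factor `Y` -/
def S_AR : Prop :=
  ∀ (L : ℕ) (P : ℕ → ℤ × ℤ) (Y : ℕ) (τ : ℕ → ℕ) (g : ℕ → ℤ × ℤ), Cl L P → 1 ≤ Y →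
    τ 0 = 0 → (∀ i < L, τ i ≤ τ (i + 1)) → (∀ k < τ L, Nb (g k) (g (k + 1))) →
    (∀ i ≤ L, g (τ i) = ((Y : ℤ) * (P i).1, (Y : ℤ) * (P i).2)) →
    (∀ i < L, ∀ k, τ i ≤ k → k ≤ τ (i + 1) →
      |(g k).1 - (Y : ℤ) * (P i).1| ≤ (Y : ℤ) ∧ |(g k).2 - (Y : ℤ) * (P i).2| ≤ (Y : ℤ)) →
    |((ar (τ L) g : ℕ) : ℤ) - (Y : ℤ) ^ 2 * (ar L P : ℕ)| ≤ 4 * (Y : ℤ) ^ 2 * L

/-- LS: the boundary of an L-shaped polyomino -/
def S_LS : Prop :=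
  ∀ s₁ s₂ t₁ t₂ : ℕ, 1 ≤ t₁ → t₁ < s₁ → 1 ≤ t₂ → t₂ < s₂ → ∃ P : ℕ → ℤ × ℤ,
    Cl (2 * (s₁ + s₂)) P ∧ P 0 = 0 ∧
    (∀ k, k ≤ 2 * (s₁ + s₂) → 0 ≤ (P k).1 ∧ (P k).1 ≤ s₁ ∧ 0 ≤ (P k).2 ∧ (P k).2 ≤ s₂) ∧
    (∃ k, k ≤ 2 * (s₁ + s₂) ∧ (P k).1 = s₁) ∧ (∃ k, k ≤ 2 * (s₁ + s₂) ∧ (P k).2 = s₂) ∧
    ar (2 * (s₁ + s₂)) P = s₁ * t₂ + t₁ * (s₂ - t₂)

/-- CI: the interpolation of a closed self-avoiding path is a simple closed curve -/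
def S_CI : Prop :=
  ∀ (n : ℕ) (g : ℕ → ℤ × ℤ), Cl n g → ∀ (k k' : ℕ) (x x' : ℝ), k < n → k' < n →
    (k : ℝ) ≤ x → x ≤ k + 1 → (k' : ℝ) ≤ x' → x' ≤ k' + 1 →
    ((g k).1 : ℝ) + (x - k) * (((g (k + 1)).1 : ℝ) - (g k).1) =
      ((g k').1 : ℝ) + (x' - k') * (((g (k' + 1)).1 : ℝ) - (g k').1) →
    ((g k).2 : ℝ) + (x - k) * (((g (k + 1)).2 : ℝ) - (g k).2) =
      ((g k').2 : ℝ) + (x' - k') * (((g (k' + 1)).2 : ℝ) - (g k').2) →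
    x = x' ∨ (x = 0 ∧ x' = n) ∨ (x = n ∧ x' = 0)

end

end Pool.Agent.N223.PS
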