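import Pool.Agent.N223.PS.Cnt
import Pool.Agent.N457.PS.AR

/-!
Extents and areas of the polygons which follow a closed lattice path; enclosed cells lie in the
bounding box.
-/

set_option autoImplicit false

namespace Pool.Agent.N223.PS

open Pool.Agent.N941.SP

/-- the width (horizontal extent) of a loop -/
noncomputable def width (m : ℕ) (f : ZMod m → ℤ × ℤ) : ℕ :=
  sSup {w : ℕ | ∃ i j, w = ((f i).1 - (f j).1).natAbs}

/-- the height (vertical extent) of a loop -/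
noncomputable def height (m : ℕ) (f : ZMod m → ℤ × ℤ) : ℕ :=
  sSup {w : ℕ | ∃ i j, w = ((f i).2 - (f j).2).natAbs}

theorem ext_bounds {m : ℕ} {F : ZMod m → ℤ} {A B : ℕ} (h1 : ∀ i j, F i - F j ≤ B)
    (h2 : ∃ i j, (A : ℤ) ≤ F i - F j) :
    A ≤ sSup {w : ℕ | ∃ i j, w = (F i - F j).natAbs} ∧
      sSup {w : ℕ | ∃ i j, w = (F i - F j).natAbs} ≤ B := by
  have hb : ∀ w ∈ {w : ℕ | ∃ i j, w = (F i - F j).natAbs}, w ≤ B := by
    rintro w ⟨i, j, rfl⟩
    have h3 := h1 i j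
    have h4 := h1 j i
    omega
  obtain ⟨i, j, hij⟩ := h2
  constructor
  · have h3 : (F i - F j).natAbs ≤ sSup {w : ℕ | ∃ i j, w = (F i - F j).natAbs} :=
      le_csSup ⟨B, hb⟩ ⟨i, j, rfl⟩
    omega
  · exact csSup_le ⟨_, i, j, rfl⟩ hb

section
variable {L n : ℕ} {P : ℕ → ℤ × ℤ} {Y : ℤ} {τ : ℕ → ℕ} {f : ZMod n → ℤ × ℤ}

theorem Fol.near {g : ℕ → ℤ × ℤ} (h : Fol L P Y τ g) (hτ : StrictMono τ) (h0 : τ 0 = 0) {k : ℕ}
    (hk : k < τ L) : ∃ i < L, τ i ≤ k ∧ k < τ (i + 1) ∧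
      |(g k).1 - Y * (P i).1| + |(g k).2 - Y * (P i).2| ≤ Y := by
  obtain ⟨h1, h2⟩ := idx_spec hτ h0 k
  have hi : idx τ k < L := by
    by_contra hc
    have := hτ.monotone (not_lt.1 hc)
    omega
  exact ⟨_, hi, h1, h2, h.nea _ hi k h1 h2⟩

theorem fol_ext (h : Fol L P Y τ (top n f)) (hτ : StrictMono τ) (h0 : τ 0 = 0) (hL : τ L = n)
    (hn : 0 < n) {s₁ s₂ : ℕ} (hY : 1 ≤ Y) (hP0 : P 0 = 0)
    (hbd : ∀ k, k ≤ L → 0 ≤ (P k).1 ∧ (P k).1 ≤ s₁ ∧ 0 ≤ (P k).2 ∧ (P k).2 ≤ s₂)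
    (h1 : ∃ k, k ≤ L ∧ (P k).1 = s₁) (h2 : ∃ k, k ≤ L ∧ (P k).2 = s₂) :
    (Y.toNat * s₁ ≤ width n f ∧ width n f ≤ Y.toNat * (s₁ + 2)) ∧
      (Y.toNat * s₂ ≤ height n f ∧ height n f ≤ Y.toNat * (s₂ + 2)) := by
  have hYn : ((Y.toNat : ℕ) : ℤ) = Y := Int.toNat_of_nonneg (by omega)
  have key : ∀ i : ZMod n, (-Y ≤ (f i).1 ∧ (f i).1 ≤ Y * (s₁ + 1)) ∧
      (-Y ≤ (f i).2 ∧ (f i).2 ≤ Y * (s₂ + 1)) := by
    intro i
    obtain ⟨k, hk, rfl⟩ := exists_cast hn i
    obtain ⟨i, hi, -, -, h3⟩ := h.near hτ h0 (k := k) (by omega)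
    obtain ⟨b1, b2, b3, b4⟩ := hbd i hi.le
    have h4 := abs_nonneg ((top n f k).1 - Y * (P i).1)
    have h5 := abs_nonneg ((top n f k).2 - Y * (P i).2)
    have h6 : |(top n f k).1 - Y * (P i).1| ≤ Y := by omega
    have h7 : |(top n f k).2 - Y * (P i).2| ≤ Y := by omega
    rw [abs_le] at h6 h7
    have c1 : 0 ≤ Y * (P i).1 := by positivity
    have c2 : 0 ≤ Y * (P i).2 := by positivity
    have c3 : Y * (P i).1 ≤ Y * s₁ := by gcongr
    have c4 : Y * (P i).2 ≤ Y * s₂ := by gcongr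
    have e : top n f k = f (k : ZMod n) := rfl
    rw [e] at h6 h7
    have e1 : Y * ((s₁ : ℤ) + 1) = Y * s₁ + Y := by ring
    have e2 : Y * ((s₂ : ℤ) + 1) = Y * s₂ + Y := by ring
    rw [e1, e2]
    refine ⟨⟨by omega, by omega⟩, ⟨by omega, by omega⟩⟩
  have hver : ∀ i ≤ L, f ((τ i : ℕ) : ZMod n) = sc Y (P i) := fun i hi => h.ver i hi
  have hv0 := hver 0 (Nat.zero_le _)
  rw [hP0] at hv0
  have hz : sc Y (0 : ℤ × ℤ) = 0 := by simp [sc]
  rw [hz] at hv0
  constructor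
  · apply ext_bounds (F := fun i => (f i).1)
    · intro i j
      have k1 := (key i).1
      have k2 := (key j).1
      push_cast
      rw [hYn]
      have e : Y * ((s₁ : ℤ) + 2) = Y * (s₁ + 1) + Y := by ring
      rw [e]
      omega
    · obtain ⟨k, hk, hk1⟩ := h1
      refine ⟨((τ k : ℕ) : ZMod n), ((τ 0 : ℕ) : ZMod n), ?_⟩
      rw [hver k hk, hv0]
      unfold sc
      simp only [Prod.fst_zero, sub_zero]
      rw [hk1]
      push_cast
      rw [hYn]
  · apply ext_bounds (F := fun i => (f i).2)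
    · intro i j
      have k1 := (key i).2
      have k2 := (key j).2
      push_cast
      rw [hYn]
      have e : Y * ((s₂ : ℤ) + 2) = Y * (s₂ + 1) + Y := by ring
      rw [e]
      omega
    · obtain ⟨k, hk, hk1⟩ := h2
      refine ⟨((τ k : ℕ) : ZMod n), ((τ 0 : ℕ) : ZMod n), ?_⟩
      rw [hver k hk, hv0]
      unfold sc
      simp only [Prod.snd_zero, sub_zero]
      rw [hk1]
      push_cast
      rw [hYn]

theorem fol_area (h : Fol L P Y τ (top n f)) (hP : Cl L P) (hτ : StrictMono τ) (h0 : τ 0 = 0)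
    (hL : τ L = n) (hn : 0 < n) (hY : 1 ≤ Y) :
    |((area n f : ℕ) : ℤ) - Y ^ 2 * (ar L P : ℕ)| ≤ 4 * Y ^ 2 * L := by
  have hYn : ((Y.toNat : ℕ) : ℤ) = Y := Int.toNat_of_nonneg (by omega)
  have h1 := Pool.Agent.N457.PS.ar_close L P Y.toNat τ (top n f) hP (by omega) h0
    (fun i _ => (hτ (Nat.lt_succ_self i)).le) h.cl.adj (by
      intro i hi
      rw [h.ver i hi, hYn]
      rfl) (by
      intro i hi k h1 h2
      rw [hYn]
      have key : |(top n f k).1 - Y * (P i).1| + |(top n f k).2 - Y * (P i).2| ≤ Y := by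
        rcases Nat.eq_or_lt_of_le h2 with h3 | h3
        · rw [h3, h.ver (i + 1) (by omega)]
          unfold sc
          simp only
          rw [← mul_sub, ← mul_sub, abs_mul, abs_mul, abs_of_nonneg (by omega : 0 ≤ Y), ← mul_add]
          have h4 := hP.adj i hi
          unfold Nb at h4
          rw [abs_sub_comm (P (i + 1)).1, abs_sub_comm (P (i + 1)).2, h4, mul_one]
        · exact h.nea i hi k h1 h3
      have h4 := abs_nonneg ((top n f k).1 - Y * (P i).1)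
      have h5 := abs_nonneg ((top n f k).2 - Y * (P i).2)
      exact ⟨by omega, by omega⟩)
  rw [hYn, hL] at h1
  have hclo : top n f n = top n f 0 := by
    have := h.cl.clo
    rwa [hL] at this
  rw [← area_tol hn hclo, tol_top hn] at h1
  exact h1

end

/-! ### the bounding box -/

open Pool.Agent.N457.PS in
theorem en_box {L : ℕ} {P : ℕ → ℤ × ℤ} (hP : Cl L P) {x0 x1 y0 y1 : ℤ}
    (hx : ∀ k < L, x0 ≤ (P k).1 ∧ (P k).1 ≤ x1) (hy : ∀ k < L, y0 ≤ (P k).2 ∧ (P k).2 ≤ y1)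
    {c : ℤ × ℤ} (hc : En L P c) : (x0 ≤ c.1 ∧ c.1 < x1) ∧ (y0 ≤ c.2 ∧ c.2 < y1) := by
  classical
  have h4 := hP.four
  have hx' : ∀ k ≤ L, x0 ≤ (P k).1 ∧ (P k).1 ≤ x1 := by
    intro k hk
    rcases Nat.eq_or_lt_of_le hk with h | h
    · rw [h, hP.clo]; exact hx 0 (by omega)
    · exact hx k h
  have hne : ∃ k < L, Ab P c.1 c.2 k := by
    by_contra hcon
    push Not at hcon
    unfold En ab at hc
    rw [Finset.filter_false_of_mem (fun k hk => hcon k (Finset.mem_range.1 hk)),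
      Finset.card_empty] at hc
    exact absurd hc (by decide)
  obtain ⟨k, hk, h1, h2⟩ := hne
  have h3 := hx' k hk.le
  have h5 := hx' (k + 1) hk
  have h6 := hy k hk
  refine ⟨⟨by omega, by omega⟩, ?_, by omega⟩
  by_contra hlt
  push Not at hlt
  rw [En_iff] at hc
  have h7 : ∑ k ∈ Finset.range L, tv (Ab P c.1 c.2 k) =
      ∑ k ∈ Finset.Ico 0 L, tv (Jn P c.1 k) := by
    rw [Finset.range_eq_Ico]
    refine Finset.sum_congr rfl fun k hk => ?_
    apply tv_congr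
    rw [Ab_iff]
    have := hy k (Finset.mem_Ico.1 hk).2
    constructor
    · exact fun h => h.1
    · exact fun h => ⟨h, by omega⟩
  rw [h7, sum_jn c.1 0 L (Nat.zero_le _) (fun k _ hk => hP.adj k hk), hP.clo,
    CharTwo.add_self_eq_zero] at hc
  exact absurd hc (by decide)

theorem area_le {n : ℕ} (hn : 4 ≤ n) {f : ZMod n → ℤ × ℤ} (hf : IsLoop n f) :
    area n f ≤ width n f * height n f := by
  classical
  have : NeZero n := ⟨by omega⟩
  have hP := top_cl hn hf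
  obtain ⟨i1, h1⟩ := Finite.exists_max (fun k : ZMod n => (f k).1)
  obtain ⟨i2, h2⟩ := Finite.exists_max (fun k : ZMod n => (f k).2)
  obtain ⟨j1, h3⟩ := Finite.exists_min (fun k : ZMod n => (f k).1)
  obtain ⟨j2, h4⟩ := Finite.exists_min (fun k : ZMod n => (f k).2)
  have h5 : area n f = ar n (top n f) := by
    rw [← area_tol (by omega) hP.clo, tol_top (by omega)]
  obtain ⟨S, hS⟩ : ∃ S : Finset (ℤ × ℤ), S = Finset.Ico (f j1).1 (f i1).1 ×ˢ
    Finset.Ico (f j2).2 (f i2).2 := ⟨_, rfl⟩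
  have hmem : ∀ c : {c : ℤ × ℤ // En n (top n f) c}, c.1 ∈ S := by
    intro c
    have := en_box hP (fun k _ => ⟨h3 _, h1 _⟩) (fun k _ => ⟨h4 _, h2 _⟩) c.2
    rw [hS, Finset.mem_product, Finset.mem_Ico, Finset.mem_Ico]
    exact this
  have h6 : Nat.card {c : ℤ × ℤ // En n (top n f) c} ≤ Nat.card S :=
    Nat.card_le_card_of_injective (fun c => (⟨c.1, hmem c⟩ : S)) (by
      intro c d h
      have := congrArg Subtype.val h
      exact Subtype.ext this)
  have e1 : ((f i1).1 - (f j1).1).toNat ≤ width n f := by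
    have h7 := (ext_bounds (F := fun i => (f i).1) (A := ((f i1).1 - (f j1).1).toNat)
      (B := ((f i1).1 - (f j1).1).toNat) (fun i j => by
        have a1 := h1 i
        have a2 := h3 j
        omega) ⟨i1, j1, by
        have a1 := h1 j1
        omega⟩).1
    exact h7
  have e2 : ((f i2).2 - (f j2).2).toNat ≤ height n f := by
    have h7 := (ext_bounds (F := fun i => (f i).2) (A := ((f i2).2 - (f j2).2).toNat)
      (B := ((f i2).2 - (f j2).2).toNat) (fun i j => by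
        have a1 := h2 i
        have a2 := h4 j
        omega) ⟨i2, j2, by
        have a1 := h2 j2
        omega⟩).1
    exact h7
  rw [h5]
  unfold ar
  refine h6.trans ?_
  rw [Nat.card_eq_fintype_card, Fintype.card_coe, hS, Finset.card_product, Int.card_Ico,
    Int.card_Ico]
  exact Nat.mul_le_mul e1 e2

end Pool.Agent.N223.PS
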