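import Pool.Agent.N941.SP.Apx
import Pool.Agent.N223.PS.Def

/-!
Substitution in closed self-avoiding lattice paths.
-/

set_option autoImplicit false

namespace Pool.Agent.N223.PS

open Pool.Agent.N941.SP
open Pool.Agent.H122R3.SX (Adj V W)

theorem Cl.un {L : ℕ} {p : ℕ → ℤ × ℤ} (h : Cl L p) {i : ℕ} (hi : i < L) : Un (p (i + 1) - p i) :=
  (adj_iff_un _ _).1 (h.adj i hi)

theorem Cl.mid {L : ℕ} {p : ℕ → ℤ × ℤ} (h : Cl L p) {i j : ℕ} (hi : i < L) (hj : j < L)
    (hij : p i + p (i + 1) = p j + p (j + 1)) : i = j := by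
  have h4 := h.four
  have h3 : p i + (p i + (p (i + 1) - p i)) = p j + (p j + (p (j + 1) - p j)) := by
    rw [add_sub_cancel, add_sub_cancel]; exact hij
  rcases edge_eq (h.un hi) (h.un hj) h3 with h5 | ⟨h5, h6⟩
  · exact h.inj i hi j hj h5
  · rw [add_sub_cancel] at h5 h6
    exfalso
    rcases Nat.lt_or_ge (i + 1) L with h7 | h7
    · have h8 := h.inj j hj (i + 1) h7 h5
      subst h8
      rcases Nat.lt_or_ge (i + 1 + 1) L with h9 | h9
      · have := h.inj i hi (i + 1 + 1) h9 h6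
        omega
      · have e : i + 1 + 1 = L := by omega
        rw [e, h.clo] at h6
        have := h.inj i hi 0 (by omega) h6
        omega
    · have e : i + 1 = L := by omega
      rw [e, h.clo] at h5
      have h8 := h.inj j hj 0 (by omega) h5
      subst h8
      have := h.inj i hi (0 + 1) (by omega) h6
      omega

theorem Cl.lp {L : ℕ} {p : ℕ → ℤ × ℤ} (h : Cl L p) : Lp (L - 1) p := by
  have h4 := h.four
  refine ⟨?_, ?_, ?_⟩
  · intro i hi
    exact h.un (by omega)
  · intro i hi j hj hij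
    exact h.inj i (by omega) j (by omega) hij
  · intro i hi j hj hij
    exact h.mid (by omega) (by omega) hij

section
variable {Y : ℤ} {L : ℕ} {p : ℕ → ℤ × ℤ} {τ : ℕ → ℕ} {d : ℕ → ℕ → ℤ × ℤ}

theorem cl_adj (hp : Cl L p) (hτ : StrictMono τ) (h0 : τ 0 = 0)
    (hf : ∀ i < L, Fl Y (τ (i + 1) - τ i) (d i)) (hdL : d L 0 = 0) {k : ℕ} (hk : k < τ L) :
    Adj (subst Y p τ d k) (subst Y p τ d (k + 1)) := by
  obtain ⟨h1, h2⟩ := idx_spec hτ h0 k
  obtain ⟨i, hi⟩ : ∃ i, i = idx τ k := ⟨_, rfl⟩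
  rw [← hi] at h1 h2
  have hiL : i < L := by
    by_contra hc
    have := hτ.monotone (not_lt.1 hc)
    omega
  have hun := hp.un hiL
  rcases Nat.lt_or_ge (k + 1) (τ (i + 1)) with h3 | h3
  · have hi' : idx τ (k + 1) = i := idx_eq hτ h0 (by omega) h3
    unfold subst
    rw [hi', ← hi]
    apply adj_rot hun
    have e : k + 1 - τ i = (k - τ i) + 1 := by omega
    rw [e]
    exact (hf i hiL).blk.adj _ (by omega)
  · have e : k + 1 = τ (i + 1) := by omega
    have hd : d (i + 1) 0 = 0 := by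
      rcases Nat.lt_or_ge (i + 1) L with h4 | h4
      · exact (hf _ h4).blk.zero
      · have : i + 1 = L := by omega
        rw [this]
        exact hdL
    rw [e, subst_tau hτ h0 hd]
    unfold subst
    rw [← hi]
    have e2 : k - τ i = (τ (i + 1) - τ i) - 1 := by omega
    have e3 : sc Y (p (i + 1)) = sc Y (p i) + rot (p (i + 1) - p i) (0, Y) := by
      rw [rot_top]
      unfold sc
      ext
      · simp only [Prod.fst_add, Prod.fst_sub]; ring
      · simp only [Prod.snd_add, Prod.snd_sub]; ring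
    rw [e2, e3]
    exact adj_rot hun _ (hf i hiL).last

/-- substitution in a closed path -/
theorem cl_subst (hY : 1 ≤ Y) (hp : Cl L p) (hτ : StrictMono τ) (h0 : τ 0 = 0)
    (hf : ∀ i < L, Fl Y (τ (i + 1) - τ i) (d i)) (hdL : d L 0 = 0) :
    Cl (τ L) (subst Y p τ d) := by
  have h4 := hp.four
  have hlast := hf (L - 1) (by omega)
  have e : L - 1 + 1 = L := by omega
  rw [e] at hlast
  have hone := hlast.one
  refine ⟨?_, ?_, ?_, ?_⟩
  · exact h4.trans hτ.le_apply
  · intro k hk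
    exact cl_adj hp hτ h0 hf hdL hk
  · intro k hk k' hk' h
    refine subst_inj hY hp.lp hτ h0 (fun i hi => hf i (by omega)) hlast.blk ?_ ?_ ?_ h
    · rw [e]; omega
    · omega
    · omega
  · rw [subst_tau hτ h0 hdL, hp.clo]
    have h1 := subst_tau (Y := Y) (p := p) (τ := τ) (d := d) hτ h0 (i := 0)
      (hf 0 (by omega)).blk.zero
    rw [h0] at h1
    rw [h1]

theorem cl_close (hY : 0 ≤ Y) (hp : Cl L p) (hτ : StrictMono τ) (h0 : τ 0 = 0)
    (hf : ∀ i < L, Fl Y (τ (i + 1) - τ i) (d i)) {k : ℕ} (hk : k < τ L) :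
    |(subst Y p τ d k).1 - Y * (p (idx τ k)).1| + |(subst Y p τ d k).2 - Y * (p (idx τ k)).2| ≤ Y := by
  obtain ⟨h1, h2⟩ := idx_spec hτ h0 k
  obtain ⟨i, hi⟩ : ∃ i, i = idx τ k := ⟨_, rfl⟩
  rw [← hi] at h1 h2 ⊢
  have hiL : i < L := by
    by_contra hc
    have := hτ.monotone (not_lt.1 hc)
    omega
  have hd : |(d i (k - τ i)).1| + |(d i (k - τ i)).2| ≤ Y :=
    (hf i hiL).blk.norm hY (by omega)
  have h3 := rot_norm (hp.un hiL) (d i (k - τ i))
  have e : subst Y p τ d k = sc Y (p i) + rot (p (i + 1) - p i) (d i (k - τ i)) := by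
    unfold subst
    rw [← hi]
  rw [e]
  have e1 : (sc Y (p i) + rot (p (i + 1) - p i) (d i (k - τ i))).1 - Y * (p i).1 =
      (rot (p (i + 1) - p i) (d i (k - τ i))).1 := by
    unfold sc
    simp only [Prod.fst_add]
    ring
  have e2 : (sc Y (p i) + rot (p (i + 1) - p i) (d i (k - τ i))).2 - Y * (p i).2 =
      (rot (p (i + 1) - p i) (d i (k - τ i))).2 := by
    unfold sc
    simp only [Prod.snd_add]
    ring
  rw [e1, e2, h3]
  exact hd

end

end Pool.Agent.N223.PS
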