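import Mathlib
import Pool.Agent.N223.PS.Def

/-!
Rooted polygons as functions on `ZMod n` and as closed paths.
-/

set_option autoImplicit false

namespace Pool.Agent.N223.PS

/-- a closed nearest-neighbour loop on `ℤ²` with `m` steps, rooted at the origin and oriented,
that visits no vertex twice -/
def IsLoop (m : ℕ) (f : ZMod m → ℤ × ℤ) : Prop :=
  f 0 = 0 ∧ Function.Injective f ∧
    ∀ i : ZMod m, |(f (i + 1)).1 - (f i).1| + |(f (i + 1)).2 - (f i).2| = 1

/-- the edge from `f k` to `f (k+1)` is horizontal, joins the columns `x = a` and `x = a + 1`, and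
has height larger than `b`: it lies above the unit cell `[a, a+1] × [b, b+1]` -/
def Above (m : ℕ) (f : ZMod m → ℤ × ℤ) (a b : ℤ) (k : ZMod m) : Prop :=
  (((f k).1 = a ∧ (f (k + 1)).1 = a + 1) ∨ ((f k).1 = a + 1 ∧ (f (k + 1)).1 = a)) ∧ b < (f k).2

/-- the unit cell `[a, a+1] × [b, b+1]` is enclosed by the loop: the vertical ray from the cell
upwards crosses an odd number of edges -/
def Encl (m : ℕ) (f : ZMod m → ℤ × ℤ) (c : ℤ × ℤ) : Prop :=
  Odd (Nat.card {k : ZMod m // Above m f c.1 c.2 k})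

/-- the area: the number of unit cells enclosed by the loop -/
noncomputable def area (m : ℕ) (f : ZMod m → ℤ × ℤ) : ℕ := Nat.card {c : ℤ × ℤ // Encl m f c}

theorem nb_comm {p q : ℤ × ℤ} (h : Nb p q) : |q.1 - p.1| + |q.2 - p.2| = 1 := by
  unfold Nb at h
  rw [abs_sub_comm q.1, abs_sub_comm q.2]
  exact h

/-- the closed path as a loop -/
def tol (n : ℕ) (g : ℕ → ℤ × ℤ) (k : ZMod n) : ℤ × ℤ := g k.val

/-- the loop as a closed path -/
def top (n : ℕ) (f : ZMod n → ℤ × ℤ) (k : ℕ) : ℤ × ℤ := f (k : ZMod n)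

theorem tol_cast {n : ℕ} (g : ℕ → ℤ × ℤ) {k : ℕ} (hk : k < n) : tol n g (k : ZMod n) = g k := by
  unfold tol
  rw [ZMod.val_natCast, Nat.mod_eq_of_lt hk]

theorem tol_cast_le {n : ℕ} {g : ℕ → ℤ × ℤ} (hg : g n = g 0) (hn : 0 < n) {k : ℕ} (hk : k ≤ n) :
    tol n g (k : ZMod n) = g k := by
  rcases Nat.eq_or_lt_of_le hk with h | h
  · rw [h, hg]
    unfold tol
    rw [ZMod.val_natCast, Nat.mod_self]
  · exact tol_cast g h

theorem exists_cast {n : ℕ} (hn : 0 < n) (k : ZMod n) : ∃ j : ℕ, j < n ∧ k = (j : ZMod n) := by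
  have : NeZero n := ⟨by omega⟩
  exact ⟨k.val, ZMod.val_lt k, (ZMod.natCast_zmod_val k).symm⟩

theorem tol_loop {n : ℕ} {g : ℕ → ℤ × ℤ} (hg : Cl n g) (h0 : g 0 = 0) : IsLoop n (tol n g) := by
  have h4 := hg.four
  refine ⟨?_, ?_, ?_⟩
  · have := tol_cast g (n := n) (k := 0) (by omega)
    rw [Nat.cast_zero] at this
    rw [this, h0]
  · intro i j hij
    obtain ⟨a, ha, rfl⟩ := exists_cast (by omega) i
    obtain ⟨b, hb, rfl⟩ := exists_cast (by omega) j
    rw [tol_cast g ha, tol_cast g hb] at hij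
    rw [hg.inj a ha b hb hij]
  · intro i
    obtain ⟨a, ha, rfl⟩ := exists_cast (by omega) i
    rw [tol_cast g ha]
    have e : ((a : ZMod n) + 1) = ((a + 1 : ℕ) : ZMod n) := by push_cast; ring
    rw [e, tol_cast_le hg.clo (by omega) (by omega : a + 1 ≤ n)]
    exact nb_comm (hg.adj a ha)

theorem top_cl {n : ℕ} (hn : 4 ≤ n) {f : ZMod n → ℤ × ℤ} (hf : IsLoop n f) : Cl n (top n f) := by
  obtain ⟨h0, h1, h2⟩ := hf
  refine ⟨hn, ?_, ?_, ?_⟩
  · intro i hi
    have h3 := h2 (i : ZMod n)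
    unfold top Nb
    push_cast
    rw [abs_sub_comm, abs_sub_comm (f (i : ZMod n)).2]
    exact h3
  · intro i hi j hj hij
    have h3 := h1 hij
    rw [ZMod.natCast_eq_natCast_iff'] at h3
    rwa [Nat.mod_eq_of_lt hi, Nat.mod_eq_of_lt hj] at h3
  · unfold top
    simp

theorem top_zero {n : ℕ} {f : ZMod n → ℤ × ℤ} (hf : IsLoop n f) : top n f 0 = 0 := by
  unfold top
  rw [Nat.cast_zero]
  exact hf.1

theorem tol_top {n : ℕ} (hn : 0 < n) (f : ZMod n → ℤ × ℤ) : tol n (top n f) = f := by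
  funext k
  have : NeZero n := ⟨by omega⟩
  unfold tol top
  rw [ZMod.natCast_zmod_val]

/-- areas agree -/
theorem area_tol {n : ℕ} (hn : 0 < n) {g : ℕ → ℤ × ℤ} (hg : g n = g 0) :
    area n (tol n g) = ar n g := by
  classical
  have : NeZero n := ⟨by omega⟩
  have key : ∀ c : ℤ × ℤ, Encl n (tol n g) c ↔ En n g c := by
    intro c
    unfold Encl En ab
    have e : Nat.card {k : ZMod n // Above n (tol n g) c.1 c.2 k} =
        ((Finset.range n).filter (fun k => Ab g c.1 c.2 k)).card := by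
      rw [Nat.card_eq_fintype_card, Fintype.card_subtype]
      symm
      refine Finset.card_bij (fun k _ => (k : ZMod n)) ?_ ?_ ?_
      · intro k hk
        rw [Finset.mem_filter, Finset.mem_range] at hk
        rw [Finset.mem_filter]
        refine ⟨Finset.mem_univ _, ?_⟩
        obtain ⟨h1, h2⟩ := hk
        have e : ((k : ZMod n) + 1) = ((k + 1 : ℕ) : ZMod n) := by push_cast; ring
        unfold Above
        rw [e, tol_cast g h1, tol_cast_le hg hn (by omega : k + 1 ≤ n)]
        exact h2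
      · intro i hi j hj hij
        rw [Finset.mem_filter, Finset.mem_range] at hi hj
        rw [ZMod.natCast_eq_natCast_iff'] at hij
        rwa [Nat.mod_eq_of_lt hi.1, Nat.mod_eq_of_lt hj.1] at hij
      · intro b hb
        obtain ⟨k, hk, rfl⟩ := exists_cast hn b
        rw [Finset.mem_filter] at hb
        refine ⟨k, ?_, rfl⟩
        rw [Finset.mem_filter, Finset.mem_range]
        refine ⟨hk, ?_⟩
        have h2 := hb.2
        have e : ((k : ZMod n) + 1) = ((k + 1 : ℕ) : ZMod n) := by push_cast; ring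
        unfold Above at h2
        rw [e, tol_cast g hk, tol_cast_le hg hn (by omega : k + 1 ≤ n)] at h2
        exact h2
    rw [e]
  unfold area ar
  exact Nat.card_congr (Equiv.subtypeEquivRight key)

end Pool.Agent.N223.PS
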