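import Pool.Agent.N223.PS.Clo
import Pool.Agent.N223.PS.Loo
import Pool.Agent.N31.PS.LE
import Pool.Agent.N941.SP.Sup

/-!
The number of rooted polygons which follow a closed lattice path.
-/

set_option autoImplicit false

namespace Pool.Agent.N223.PS

open Finset Real
open Pool.Agent.N941.SP
open Pool.Agent.H122R3.SX (Adj V W Saw c walks fs mem_fs fw fw_inj ncard_walks walks_finite two_pow_le)
open Pool.Agent.TH303.SX2 (Bd)

theorem Cl.even {L : ℕ} {P : ℕ → ℤ × ℤ} (h : Cl L P) : Even L := by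
  have key : ∀ k ≤ L, ((P k).1 + (P k).2 + ((P 0).1 + (P 0).2) + k) % 2 = 0 := by
    intro k
    induction k with
    | zero => intro _; push_cast; omega
    | succ k ih =>
      intro hk
      have h1 := ih (by omega)
      have h2 := h.adj k (by omega)
      unfold Nb at h2
      push_cast
      rcases abs_cases ((P k).1 - (P (k + 1)).1) with h3 | h3 <;>
        rcases abs_cases ((P k).2 - (P (k + 1)).2) with h4 | h4 <;> omega
  have h1 := key L le_rfl
  rw [h.clo] at h1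
  rw [Nat.even_iff]
  omega

/-- loops and walks -/
theorem loops_finite {n : ℕ} (hn : 1 ≤ n) :
    {f : ZMod n → ℤ × ℤ | IsLoop n f}.Finite ∧ {f : ZMod n → ℤ × ℤ | IsLoop n f}.ncard ≤ c (n - 1) := by
  have hinj : Set.InjOn (fun (f : ZMod n → ℤ × ℤ) (k : Fin (n - 1 + 1)) => f ((k : ℕ) : ZMod n))
      {f : ZMod n → ℤ × ℤ | IsLoop n f} := by
    intro f _ f' _ h
    funext k
    obtain ⟨j, hj, rfl⟩ := exists_cast (by omega) k
    have := congrFun h ⟨j, by omega⟩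
    exact this
  have hmaps : ∀ f ∈ {f : ZMod n → ℤ × ℤ | IsLoop n f},
      (fun (f : ZMod n → ℤ × ℤ) (k : Fin (n - 1 + 1)) => f ((k : ℕ) : ZMod n)) f ∈
        walks (n - 1) := by
    rintro f ⟨h0, h1, h2⟩
    refine ⟨?_, ?_, ?_⟩
    · simp only [Fin.val_zero, Nat.cast_zero]
      exact h0
    · intro i j hij
      have h3 := h1 hij
      rw [ZMod.natCast_eq_natCast_iff'] at h3
      rw [Nat.mod_eq_of_lt (by omega), Nat.mod_eq_of_lt (by omega)] at h3
      exact Fin.ext h3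
    · intro i
      have h3 := h2 ((i : ℕ) : ZMod n)
      unfold Adj
      simp only [Fin.val_castSucc, Fin.val_succ, Nat.cast_add, Nat.cast_one]
      rw [abs_sub_comm, abs_sub_comm (f ((i : ℕ) : ZMod n)).2]
      exact h3
  constructor
  · exact Set.Finite.of_injOn hmaps hinj (walks_finite _)
  · rw [← ncard_walks]
    exact Set.ncard_le_ncard_of_injOn _ hmaps hinj (walks_finite _)

/-! ### the words -/

/-- the times -/
def tm (m : ℕ → ℕ) (i : ℕ) : ℕ := ∑ j ∈ range i, m j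

theorem tm_zero (m : ℕ → ℕ) : tm m 0 = 0 := by simp [tm]

theorem tm_succ (m : ℕ → ℕ) (i : ℕ) : tm m (i + 1) = tm m i + m i := sum_range_succ m i

theorem tm_mono {m : ℕ → ℕ} (hm : ∀ i, 1 ≤ m i) : StrictMono (tm m) := by
  apply strictMono_nat_of_lt_succ
  intro i
  rw [tm_succ]
  have := hm i
  omega

/-- closed path `g` with the times `τ` follows the path `P` enlarged by the factor `Y` -/
structure Fol (L : ℕ) (P : ℕ → ℤ × ℤ) (Y : ℤ) (τ : ℕ → ℕ) (g : ℕ → ℤ × ℤ) : Prop where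
  cl : Cl (τ L) g
  ver : ∀ i ≤ L, g (τ i) = sc Y (P i)
  nea : ∀ i < L, ∀ k, τ i ≤ k → k < τ (i + 1) →
    |(g k).1 - Y * (P i).1| + |(g k).2 - Y * (P i).2| ≤ Y

section
variable {Y : ℤ} {L : ℕ} {P : ℕ → ℤ × ℤ} {m : ℕ → ℕ}

/-- the closed path of a family of words -/
def cw (Y : ℤ) (L : ℕ) (P : ℕ → ℤ × ℤ) (m : ℕ → ℕ) (w : ℕ → W) : ℕ → ℤ × ℤ :=
  subst Y P (tm m) (blk L w)

theorem blk_fl (hY : 1 ≤ Y) {w : ℕ → W} (hw : ∀ i < L, Dm Y (w i) ∧ (w i).length = m i) :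
    (∀ i < L, Fl Y (tm m (i + 1) - tm m i) (blk L w i)) ∧ blk L w L 0 = 0 := by
  constructor
  · intro i hi
    rw [tm_succ, Nat.add_sub_cancel_left]
    have h1 := (hw i hi).1.fl hY
    rw [(hw i hi).2] at h1
    have e2 : blk L w i = fun s => V ((w i).take s) := by
      funext s
      unfold blk
      rw [if_pos hi]
    rw [e2]
    exact h1
  · unfold blk
    rw [if_neg (by omega)]
    simp

theorem cw_fol (hY : 1 ≤ Y) (hP : Cl L P) (hm : ∀ i, 1 ≤ m i) {w : ℕ → W}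
    (hw : ∀ i < L, Dm Y (w i) ∧ (w i).length = m i) : Fol L P Y (tm m) (cw Y L P m w) := by
  obtain ⟨hf, hd⟩ := blk_fl hY hw
  have hτ := tm_mono hm
  have h0 := tm_zero m
  refine ⟨cl_subst hY hP hτ h0 hf hd, ?_, ?_⟩
  · intro i hi
    apply subst_tau hτ h0
    rcases Nat.eq_or_lt_of_le hi with h | h
    · rw [h]; exact hd
    · exact (hf i h).blk.zero
  · intro i hi k h1 h2
    have h3 := cl_close (by omega : (0 : ℤ) ≤ Y) hP hτ h0 hf (k := k)
      (lt_of_lt_of_le h2 (hτ.monotone (by omega)))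
    rw [idx_eq hτ h0 h1 h2] at h3
    exact h3

theorem cw_inj (hP : Cl L P) (hm : ∀ i, 1 ≤ m i) {w w' : ℕ → W}
    (hw : ∀ i < L, Dm Y (w i) ∧ (w i).length = m i)
    (hw' : ∀ i < L, Dm Y (w' i) ∧ (w' i).length = m i)
    (h : ∀ k < tm m L, cw Y L P m w k = cw Y L P m w' k) : ∀ i < L, w i = w' i := by
  intro i hi
  have hτ := tm_mono hm
  have h0 := tm_zero m
  apply fw_inj (hw i hi).2 (hw' i hi).2
  funext s
  unfold fw
  have hs := s.2
  rcases Nat.lt_or_ge (s : ℕ) (m i) with h1 | h1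
  · have h3 : tm m i + s < tm m (i + 1) := by rw [tm_succ]; omega
    have h4 : tm m (i + 1) ≤ tm m L := hτ.monotone (by omega)
    have h2 := h (tm m i + s) (by omega)
    unfold cw at h2
    have hidx : idx (tm m) (tm m i + s) = i := idx_eq hτ h0 (by omega) h3
    unfold subst at h2
    simp only [hidx] at h2
    have h5 := rot_inj (hP.un hi) (add_left_cancel h2)
    rw [Nat.add_sub_cancel_left] at h5
    unfold blk at h5
    rw [if_pos hi, if_pos hi] at h5
    exact h5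
  · have e : (s : ℕ) = m i := by omega
    rw [e, List.take_of_length_le (hw i hi).2.le, List.take_of_length_le (hw' i hi).2.le]
    unfold V
    rw [(hw i hi).1.top, (hw i hi).1.hor, (hw' i hi).1.top, (hw' i hi).1.hor]

theorem prod_le (hY : 1 ≤ Y) (hP : Cl L P) (hP0 : P 0 = 0) (hm : ∀ i, 1 ≤ m i) :
    ∏ i ∈ range L, dm Y (m i) ≤ {f : ZMod (tm m L) → ℤ × ℤ | IsLoop (tm m L) f ∧
      Fol L P Y (tm m) (top (tm m L) f)}.ncard := by
  classical
  have h4 := hP.four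
  have hτ := tm_mono hm
  have hpos : 0 < tm m L := lt_of_lt_of_le (by omega : 0 < L) hτ.le_apply
  have h1 : ∏ i ∈ range L, dm Y (m i) =
      (Fintype.piFinset fun i : Fin L => fs (Dm Y) (m i)).card := by
    rw [Fintype.card_piFinset, ← Fin.prod_univ_eq_prod_range]
    rfl
  obtain ⟨F, hF⟩ : ∃ F : (Fin L → W) → ℕ → W, F = fun v i => if h : i < L then v ⟨i, h⟩ else [] :=
    ⟨_, rfl⟩
  have hFi : ∀ v (i : Fin L), F v i = v i := by
    intro v i
    rw [hF]
    simp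
  have hFw : ∀ v ∈ Fintype.piFinset fun i : Fin L => fs (Dm Y) (m i),
      ∀ i < L, Dm Y (F v i) ∧ (F v i).length = m i := by
    intro v hv i hi
    rw [Fintype.mem_piFinset] at hv
    have := hv ⟨i, hi⟩
    rw [mem_fs] at this
    rw [hFi v ⟨i, hi⟩]
    exact this
  rw [h1, ← Set.ncard_coe_finset]
  refine Set.ncard_le_ncard_of_injOn (fun v => tol (tm m L) (cw Y L P m (F v))) ?_ ?_
    ((loops_finite hpos).1.subset fun ω hω => hω.1)
  · intro v hv
    rw [mem_coe] at hv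
    have hfol := cw_fol hY hP hm (hFw v hv)
    have h0 : cw Y L P m (F v) 0 = 0 := by
      have := hfol.ver 0 (Nat.zero_le _)
      rw [tm_zero, hP0] at this
      rw [this]
      simp [sc]
    refine ⟨tol_loop hfol.cl h0, ?_⟩
    have e : ∀ k ≤ tm m L, top (tm m L) (tol (tm m L) (cw Y L P m (F v))) k =
        cw Y L P m (F v) k := by
      intro k hk
      unfold top
      exact tol_cast_le hfol.cl.clo hpos hk
    refine ⟨?_, ?_, ?_⟩
    · exact top_cl (h4.trans hτ.le_apply) (tol_loop hfol.cl h0)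
    · intro i hi
      rw [e _ (hτ.monotone hi)]
      exact hfol.ver i hi
    · intro i hi k h1 h2
      have h3 : tm m (i + 1) ≤ tm m L := hτ.monotone (by omega)
      rw [e k (by omega)]
      exact hfol.nea i hi k h1 h2
  · intro v hv v' hv' h
    rw [mem_coe] at hv hv'
    have h2 : ∀ k < tm m L, cw Y L P m (F v) k = cw Y L P m (F v') k := by
      intro k hk
      have := congrFun h (k : ZMod (tm m L))
      simp only at this
      rwa [tol_cast _ hk, tol_cast _ hk] at this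
    have h3 := cw_inj hP hm (hFw v hv) (hFw v' hv') h2
    funext i
    have := h3 i i.2
    rwa [hFi, hFi] at this

end

/-- the times: the first block is longer -/
def bt (m E i : ℕ) : ℕ := if i = 0 then m + 2 * E else m

theorem tm_bt (m E : ℕ) {i : ℕ} (hi : 1 ≤ i) : tm (bt m E) i = m * i + 2 * E := by
  induction i, hi using Nat.le_induction with
  | base => rw [tm_succ, tm_zero]; simp [bt]
  | succ i hi ih =>
    rw [tm_succ, ih]
    unfold bt
    rw [if_neg (by omega)]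
    ring

/-- **polygons which follow a closed lattice path** -/
theorem main_count {L : ℕ} {P : ℕ → ℤ × ℤ} (hP : Cl L P) (hP0 : P 0 = 0) :
    ∃ (K : ℝ) (n₀ : ℕ), ∀ n ≥ n₀, ∃ (Y : ℤ) (τ : ℕ → ℕ), 1 ≤ Y ∧ StrictMono τ ∧ τ 0 = 0 ∧
      τ L = 2 * n ∧ L ≤ 2 * n / L ∧
      (∀ i ≤ L, 2 * n / L * i ≤ τ i ∧ τ i ≤ 2 * n / L * i + L) ∧
      exp (-(K * log n ^ 3)) * ({f : ZMod (2 * n) → ℤ × ℤ | IsLoop (2 * n) f}.ncard : ℝ) ≤
        ({f : ZMod (2 * n) → ℤ × ℤ | IsLoop (2 * n) f ∧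
          Fol L P Y τ (top (2 * n) f)}.ncard : ℝ) := by
  obtain ⟨μ, K, hB⟩ := Pool.Agent.TH303.SX2.exists_Bd
  obtain ⟨Kb, hKb, hb⟩ := exists_Kb
  have hμ0 : 0 < μ := by linarith [hB.one]
  have hlμ : 0 ≤ log μ := log_nonneg hB.one
  have hK2 := Pool.Agent.TH303.SX2.K2_nonneg hB.Kn
  have hKn := hB.Kn
  obtain ⟨C, hC⟩ : ∃ C, C = 12 * (4 * Pool.Agent.TH303.SX2.K2 K + 2 * K + Kb + 22) +
      45 * (Kb + 6) + 10 * log μ := ⟨_, rfl⟩
  have hC0 : 0 ≤ C := by rw [hC]; positivity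
  have h4 := hP.four
  obtain ⟨L2, hL2⟩ := hP.even
  obtain ⟨s, hs⟩ : ∃ s, s = 2 * L + 2 := ⟨_, rfl⟩
  obtain ⟨D, hD⟩ : ∃ D : ℕ, D = 2 * s * L + L := ⟨_, rfl⟩
  refine ⟨C * L * 8 + 4 * K + D * log μ, L * (416 + 2 * s + L), fun n hn => ?_⟩
  obtain ⟨m, hm⟩ : ∃ m, m = 2 * n / L := ⟨_, rfl⟩
  obtain ⟨r, hr⟩ : ∃ r, r = 2 * n % L := ⟨_, rfl⟩
  have hdm := Nat.div_add_mod (2 * n) L
  have hmod := Nat.mod_lt (2 * n) (by omega : 0 < L)
  rw [← hm, ← hr] at hdm
  rw [← hr] at hmod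
  have hmge : 416 + 2 * s + L ≤ m := by
    rw [hm, Nat.le_div_iff_mul_le (by omega)]
    calc (416 + 2 * s + L) * L = L * (416 + 2 * s + L) := by ring
      _ ≤ n := hn
      _ ≤ 2 * n := by omega
  obtain ⟨E, hE⟩ : ∃ E, r = 2 * E := by
    have : Even r := by
      have h1 : Even (L * m + r) := by rw [hdm]; exact even_two_mul n
      have h2 : Even (L * m) := by rw [hL2]; exact (Even.add_self L2).mul_right m
      exact (Nat.even_add.1 h1).1 h2
    obtain ⟨E, hE⟩ := this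
    exact ⟨E, by omega⟩
  obtain ⟨n1, hn1⟩ : ∃ n1, n1 = m - 2 * s := ⟨_, rfl⟩
  have hn416 : 416 ≤ n1 := by omega
  obtain ⟨Y1, hY1, hdmY⟩ := diam hB hKb hb hn416
  rw [← hC] at hdmY
  obtain ⟨Y, hYd⟩ : ∃ Y : ℤ, Y = Y1 + 2 * ((2 * L + 2 : ℕ) : ℤ) := ⟨_, rfl⟩
  have hY : 1 ≤ Y := by rw [hYd]; omega
  have hlen : ∀ e ≤ L, dm Y1 n1 ≤ dm Y (m + 2 * e) := by
    intro e he
    have h1 := Pool.Agent.N31.PS.le_dm Y1 n1 L e hY1 he
    rw [← hYd] at h1
    have e1 : n1 + 2 * (2 * L + 2) + 2 * e = m + 2 * e := by omega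
    rwa [e1] at h1
  have hbt : ∀ i, 1 ≤ bt m E i := by
    intro i
    unfold bt
    split_ifs <;> omega
  have hτL : tm (bt m E) L = 2 * n := by
    rw [tm_bt m E (by omega), ← hE, ← hdm]
    ring
  refine ⟨Y, tm (bt m E), hY, tm_mono hbt, tm_zero _, hτL, by rw [← hm]; omega, ?_, ?_⟩
  · intro i hi
    rw [← hm]
    rcases Nat.eq_zero_or_pos i with h | h
    · rw [h, tm_zero]; omega
    · rw [tm_bt m E h]; omega
  have hcount := prod_le hY hP hP0 hbt
  rw [hτL] at hcount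
  have hcount' : dm Y1 n1 ^ L ≤ {f : ZMod (2 * n) → ℤ × ℤ | IsLoop (2 * n) f ∧
      Fol L P Y (tm (bt m E)) (top (2 * n) f)}.ncard := by
    refine le_trans ?_ hcount
    calc dm Y1 n1 ^ L = ∏ i ∈ range L, dm Y1 n1 := by rw [prod_const, card_range]
      _ ≤ _ := by
        apply prod_le_prod' 
        intro i _
        unfold bt
        split_ifs
        · exact hlen E (by omega)
        · exact hlen 0 (by omega)
  have hcr : (dm Y1 n1 : ℝ) ^ L ≤ ({f : ZMod (2 * n) → ℤ × ℤ | IsLoop (2 * n) f ∧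
      Fol L P Y (tm (bt m E)) (top (2 * n) f)}.ncard : ℝ) := by exact_mod_cast hcount'
  refine le_trans ?_ hcr
  -- numerics
  have hn0 : 416 ≤ n := by
    have : L * 416 ≤ n := by nlinarith
    omega
  have hnr : (416 : ℝ) ≤ n := by exact_mod_cast hn0
  have hl1 : 1 ≤ log (n : ℝ) := by
    rw [← log_exp 1]
    apply log_le_log (exp_pos _)
    have := exp_one_lt_d9
    linarith
  have hl0 : 0 ≤ log (n : ℝ) := by linarith
  have hl2n : log ((2 * n : ℕ) : ℝ) ≤ 2 * log n := by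
    rw [Nat.cast_mul, Nat.cast_ofNat, log_mul (by norm_num) (by linarith)]
    have : log 2 ≤ log (n : ℝ) := log_le_log (by norm_num) (by linarith)
    linarith
  have hup : ({f : ZMod (2 * n) → ℤ × ℤ | IsLoop (2 * n) f}.ncard : ℝ) ≤
      μ ^ (2 * n) * exp (4 * K * log n ^ 2) := by
    have h1 : ({f : ZMod (2 * n) → ℤ × ℤ | IsLoop (2 * n) f}.ncard : ℝ) ≤ c (2 * n - 1) := by
      exact_mod_cast (loops_finite (by omega : 1 ≤ 2 * n)).2
    have h2 := hB.up (2 * n - 1) (by omega)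
    refine h1.trans (h2.trans ?_)
    have h3 : μ ^ (2 * n - 1) ≤ μ ^ (2 * n) := pow_le_pow_right₀ hB.one (by omega)
    have h4 : log ((2 * n - 1 : ℕ) : ℝ) ≤ 2 * log n := by
      refine le_trans ?_ hl2n
      apply log_le_log
      · exact_mod_cast (by omega : 0 < 2 * n - 1)
      · exact_mod_cast (by omega : 2 * n - 1 ≤ 2 * n)
    have h5 : K * log ((2 * n - 1 : ℕ) : ℝ) ^ 2 ≤ 4 * K * log n ^ 2 := by
      have h6 : 0 ≤ log ((2 * n - 1 : ℕ) : ℝ) := log_natCast_nonneg _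
      have h7 : log ((2 * n - 1 : ℕ) : ℝ) ^ 2 ≤ (2 * log n) ^ 2 := pow_le_pow_left₀ h6 h4 2
      calc K * log ((2 * n - 1 : ℕ) : ℝ) ^ 2 ≤ K * (2 * log n) ^ 2 := by gcongr
        _ = _ := by ring
    gcongr
  have hn1le : n1 ≤ 2 * n := by
    have : m ≤ 2 * n := by rw [hm]; exact Nat.div_le_self _ _
    omega
  have hlm : log (n1 : ℝ) ≤ 2 * log n := by
    refine le_trans (log_le_log ?_ ?_) hl2n
    · exact_mod_cast (by omega : 0 < n1)
    · exact_mod_cast hn1le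
  have hlm0 : 0 ≤ log (n1 : ℝ) := log_natCast_nonneg n1
  have hl3 : log (n1 : ℝ) ^ 3 ≤ 8 * log n ^ 3 := by
    calc log (n1 : ℝ) ^ 3 ≤ (2 * log n) ^ 3 := pow_le_pow_left₀ hlm0 hlm 3
      _ = _ := by ring
  have hLr : (0 : ℝ) ≤ L := Nat.cast_nonneg L
  have s1 : μ ^ (n1 * L) * exp (-(C * L * 8 * log n ^ 3)) ≤ (dm Y1 n1 : ℝ) ^ L := by
    calc μ ^ (n1 * L) * exp (-(C * L * 8 * log n ^ 3))
        = (μ ^ n1 * exp (-(C * (8 * log n ^ 3)))) ^ L := by
          rw [mul_pow, ← pow_mul, ← exp_nat_mul]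
          congr 2
          ring
      _ ≤ (μ ^ n1 * exp (-(C * log n1 ^ 3))) ^ L := by
          gcongr
      _ ≤ _ := by gcongr
  have s3 : μ ^ (2 * n) ≤ μ ^ (n1 * L) * exp (D * log μ) := by
    have e0 : 2 * n ≤ n1 * L + D := by
      rw [← hdm, hD]
      have : m = n1 + 2 * s := by omega
      rw [this]
      have : L * (n1 + 2 * s) + r = n1 * L + 2 * s * L + r := by ring
      omega
    have e2 : exp (D * log μ) = μ ^ D := by rw [exp_nat_mul, exp_log hμ0]
    rw [e2, ← pow_add]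
    exact pow_le_pow_right₀ hB.one e0
  calc exp (-((C * L * 8 + 4 * K + D * log μ) * log n ^ 3)) *
        ({f : ZMod (2 * n) → ℤ × ℤ | IsLoop (2 * n) f}.ncard : ℝ)
      ≤ exp (-((C * L * 8 + 4 * K + D * log μ) * log n ^ 3)) *
        ((μ ^ (n1 * L) * exp (D * log μ)) * exp (4 * K * log n ^ 2)) := by
        refine mul_le_mul_of_nonneg_left (hup.trans ?_) (exp_pos _).le
        gcongr
    _ = μ ^ (n1 * L) * exp (-((C * L * 8 + 4 * K + D * log μ) * log n ^ 3) + D * log μ +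
        4 * K * log n ^ 2) := by rw [exp_add, exp_add]; ring
    _ ≤ μ ^ (n1 * L) * exp (-(C * L * 8 * log n ^ 3)) := by
        gcongr
        have a1 : log (n : ℝ) ^ 2 ≤ log n ^ 3 := pow_le_pow_right₀ hl1 (by norm_num)
        have a2 : 1 ≤ log (n : ℝ) ^ 3 := one_le_pow₀ hl1
        have a3 : 0 ≤ (D : ℝ) * log μ := by positivity
        nlinarith [mul_le_mul_of_nonneg_left a1 hKn, mul_le_mul_of_nonneg_left a2 a3]
    _ ≤ _ := s1

end Pool.Agent.N223.PS
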