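import Pool.Agent.N941.SP.Dia

/-!
Project PS: a statement on diamond words.
-/

set_option autoImplicit false

namespace Pool.Agent.N223.PS

/-- LE: diamond words can be made longer -/
def S_LE : Prop :=
  ∀ (Y : ℤ) (n J E : ℕ), 1 ≤ Y → E ≤ J →
    Pool.Agent.N941.SP.dm Y n ≤
      Pool.Agent.N941.SP.dm (Y + 2 * ((2 * J + 2 : ℕ) : ℤ)) (n + 2 * (2 * J + 2) + 2 * E)

end Pool.Agent.N223.PS
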